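import Pool.Agent.H321.SN.Per

set_option autoImplicit false

namespace Pool.Agent.H321.SN

open Equiv Finset Polynomial

theorem range_even (R : Type*) [CommRing R] (h : ℕ) :
    ∏ j ∈ Finset.range (2 * h), (X + C ((-1 : R) ^ j)) = (X ^ 2 - 1 : R[X]) ^ h := by
  induction h with
  | zero => simp
  | succ h ih =>
    have h1 : (-1 : R) ^ (2 * h) = 1 := by rw [pow_mul, neg_one_sq, one_pow]
    have h2 : (-1 : R) ^ (2 * h + 1) = -1 := by rw [pow_succ, h1, one_mul]
    have e : (X + C (1 : R)) * (X + C (-1 : R)) = X ^ 2 - 1 := by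
      rw [C_neg, C_1]; ring
    rw [show 2 * (h + 1) = 2 * h + 1 + 1 by ring, Finset.prod_range_succ, Finset.prod_range_succ, ih,
      mul_assoc, h1, h2, e, ← pow_succ]

theorem range_odd (R : Type*) [CommRing R] (h : ℕ) :
    ∏ j ∈ Finset.range (2 * h + 1), (X + C ((-1 : R) ^ j)) = (X ^ 2 - 1 : R[X]) ^ h * (X + 1) := by
  rw [Finset.prod_range_succ, range_even, pow_mul]
  simp

theorem coeff_sq {R : Type*} [CommRing R] (h i : ℕ) :
    ((X ^ 2 - 1 : R[X]) ^ h).coeff (2 * i) = (-1) ^ (h - i) * (h.choose i : R) := by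
  have e : (X ^ 2 - 1 : R[X]) ^ h = expand R 2 ((X + C (-1)) ^ h) := by
    rw [map_pow, map_add, expand_X, expand_C, map_neg, map_one, sub_eq_add_neg]
  rw [e, coeff_expand (by norm_num), if_pos (Dvd.intro _ rfl), Nat.mul_div_cancel_left _ (by norm_num),
    coeff_X_add_C_pow]

theorem coeff_sq' {R : Type*} [CommRing R] (h i : ℕ) :
    ((X ^ 2 - 1 : R[X]) ^ h).coeff (2 * i + 1) = 0 := by
  have e : (X ^ 2 - 1 : R[X]) ^ h = expand R 2 ((X + C (-1)) ^ h) := by
    rw [map_pow, map_add, expand_X, expand_C, map_neg, map_one, sub_eq_add_neg]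
  rw [e, coeff_expand (by norm_num), if_neg (by omega)]

theorem coeff_one {R : Type*} [CommRing R] (h u : ℕ) :
    ((X ^ 2 - 1 : R[X]) ^ h * (X + 1)).coeff u = (-1) ^ (h - u / 2) * (h.choose (u / 2) : R) := by
  rw [mul_add, mul_one, coeff_add]
  rcases Nat.even_or_odd' u with ⟨i, rfl | rfl⟩
  · rw [coeff_sq, Nat.mul_div_cancel_left _ (by norm_num)]
    rcases i with _ | i
    · simp
    · rw [show 2 * (i + 1) = (2 * i + 1) + 1 by ring, coeff_mul_X, coeff_sq', zero_add]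
  · rw [coeff_mul_X, coeff_sq, coeff_sq', add_zero, show (2 * i + 1) / 2 = i by omega]

theorem coeff_two {R : Type*} [CommRing R] (h i : ℕ) :
    ((X ^ 2 - 1 : R[X]) ^ h * (X + 1) * (X + 1)).coeff (2 * i + 1) =
      2 * ((-1) ^ (h - i) * (h.choose i : R)) := by
  have e : (X ^ 2 - 1 : R[X]) ^ h * (X + 1) * (X + 1) =
      (X ^ 2 - 1 : R[X]) ^ h * X ^ 2 + (C 2 * ((X ^ 2 - 1 : R[X]) ^ h)) * X + (X ^ 2 - 1) ^ h := by
    rw [show (C (2 : R)) = 2 from rfl]
    ring
  rw [e, coeff_add, coeff_add, coeff_mul_X, coeff_C_mul, coeff_sq, coeff_sq', add_zero]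
  rcases i with _ | i
  · rw [coeff_mul_X_pow', if_neg (by norm_num), zero_add]
  · rw [show 2 * (i + 1) + 1 = (2 * i + 1) + 2 by ring, coeff_mul_X_pow, coeff_sq', zero_add]

theorem choose_ne {p : ℕ} [hp : Fact p.Prime] {h i : ℕ} (hi : i ≤ h) (hh : h < p) :
    (-1 : ZMod p) ^ (h - i) * (h.choose i : ZMod p) ≠ 0 := by
  refine mul_ne_zero (pow_ne_zero _ (neg_ne_zero.2 one_ne_zero)) ?_
  intro h0
  rw [ZMod.natCast_eq_zero_iff] at h0
  have h1 : p ∣ h.factorial := by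
    rw [← Nat.choose_mul_factorial_mul_factorial hi]
    exact Dvd.dvd.mul_right (Dvd.dvd.mul_right h0 _) _
  rw [hp.out.dvd_factorial] at h1
  omega

theorem fac_ne {p : ℕ} [hp : Fact p.Prime] {k v m : ℕ} (hv : v ≤ k) (h : m * k.choose v = k.factorial)
    (h1 : v < p) (h2 : k - v < p) : (m : ZMod p) ≠ 0 := by
  intro h0
  rw [ZMod.natCast_eq_zero_iff] at h0
  have h3 : m = v.factorial * (k - v).factorial := by
    have h4 := Nat.choose_mul_factorial_mul_factorial hv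
    have h5 : 0 < k.choose v := Nat.choose_pos hv
    apply Nat.eq_of_mul_eq_mul_right h5
    rw [h, ← h4]
    ring
  rw [h3, hp.out.dvd_mul, hp.out.dvd_factorial, hp.out.dvd_factorial] at h0
  omega

/-- the exponents `0, …, k-1` -/
def cs (k : ℕ) : Fin k → ℕ := fun j => j

/-- the exponents `0, …, k-2, k` -/
def ct (k : ℕ) : Fin k → ℕ := fun j => if (j : ℕ) + 1 = k then k else j

theorem prod_cs (R : Type*) [CommRing R] (k : ℕ) :
    ∏ j : Fin k, (X + C ((-1 : R) ^ cs k j)) = ∏ j ∈ Finset.range k, (X + C ((-1 : R) ^ j)) :=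
  Fin.prod_univ_eq_prod_range (fun j => (X + C ((-1 : R) ^ j))) k

theorem prod_ct (R : Type*) [CommRing R] (h : ℕ) :
    ∏ j : Fin (2 * h + 1 + 1), (X + C ((-1 : R) ^ ct (2 * h + 1 + 1) j)) =
      (X ^ 2 - 1 : R[X]) ^ h * (X + 1) * (X + 1) := by
  rw [Fin.prod_univ_castSucc]
  have h1 : ∀ j : Fin (2 * h + 1), ct (2 * h + 1 + 1) j.castSucc = j := by
    intro j
    unfold ct
    rw [if_neg]
    · rfl
    · have := j.2
      simp only [Fin.val_castSucc]
      omega
  have h2 : ct (2 * h + 1 + 1) (Fin.last (2 * h + 1)) = 2 * (h + 1) := by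
    unfold ct
    rw [if_pos (by simp)]
    ring
  simp only [h1, h2]
  rw [Fin.prod_univ_eq_prod_range (fun j => (X + C ((-1 : R) ^ j))) (2 * h + 1), range_odd, pow_mul]
  simp

variable {p : ℕ} [Fact p.Prime]

theorem pe_cs {k : ℕ} (s : Fin k → ZMod p) (V : Finset (Fin k))
    (hV : ∀ i, s i = if i ∈ V then -1 else 1) (h1 : V.card < p) (h2 : k - V.card < p)
    (h3 : Odd k ∨ Even V.card) : pe (cs k) s ≠ 0 := by
  obtain ⟨m, hm, h⟩ := pe_sign (cs k) s V hV
  have hle : V.card ≤ k := by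
    have := Finset.card_le_univ V
    rwa [Fintype.card_fin] at this
  rw [h, prod_cs]
  refine mul_ne_zero (fac_ne hle hm h1 h2) ?_
  rcases Nat.even_or_odd' k with ⟨g, rfl | rfl⟩
  · have h4 : Even V.card := by
      rcases h3 with h3 | h3
      · exact absurd h3 (by simp)
      · exact h3
    obtain ⟨w, hw⟩ := h4
    rw [range_even, show 2 * g - V.card = 2 * (g - w) by omega, coeff_sq]
    exact choose_ne (by omega) (by omega)
  · rw [range_odd, coeff_one]
    exact choose_ne (by omega) (by omega)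

theorem pe_ct (hp2 : p ≠ 2) {k : ℕ} (s : Fin k → ZMod p) (V : Finset (Fin k))
    (hV : ∀ i, s i = if i ∈ V then -1 else 1) (h1 : V.card < p) (h2 : k - V.card < p)
    (h3 : Even k) (h4 : Odd V.card) : pe (ct k) s ≠ 0 := by
  obtain ⟨m, hm, h⟩ := pe_sign (ct k) s V hV
  have hle : V.card ≤ k := by
    have := Finset.card_le_univ V
    rwa [Fintype.card_fin] at this
  rw [h]
  refine mul_ne_zero (fac_ne hle hm h1 h2) ?_
  obtain ⟨w, hw⟩ := h4
  obtain ⟨g, hg⟩ := h3
  obtain ⟨g', rfl⟩ : ∃ g', k = 2 * g' + 1 + 1 := ⟨g - 1, by omega⟩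
  rw [prod_ct, hw, show 2 * g' + 1 + 1 - (2 * w + 1) = 2 * (g' - w) + 1 by omega, coeff_two]
  refine mul_ne_zero ?_ (choose_ne (by omega) (by omega))
  intro h0
  have h5 : ((2 : ℕ) : ZMod p) = 0 := by exact_mod_cast h0
  rw [ZMod.natCast_eq_zero_iff] at h5
  exact hp2 ((Nat.prime_dvd_prime_iff_eq (Fact.out) Nat.prime_two).1 h5)

end Pool.Agent.H321.SN
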