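import Pool.Agent.H321.SN.Fin

set_option autoImplicit false

namespace Pool.Agent.H321.SN

open Equiv Finset Polynomial

theorem parity_add {N : ℕ} [NeZero N] (hN : Even N) (x : ZMod N) (j : ℕ) :
    Even (x + ((2 * j : ℕ) : ZMod N)).val ↔ Even x.val := by
  have h2 : 2 ∣ N := hN.two_dvd
  rw [ZMod.val_add, ZMod.val_natCast, Nat.even_iff, Nat.even_iff, Nat.mod_mod_of_dvd _ h2, Nat.add_mod,
    Nat.mod_mod_of_dvd _ h2, Nat.mul_mod_right, add_zero, Nat.mod_mod]

theorem big {p s : ℕ} (hs : 0 < s) {N : ℕ} [NeZero N] (hN : N = p * s * 2) (B : Finset (ZMod N))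
    (x : ZMod N) (h : ∀ j : ℕ, x + ((2 * (s * j) : ℕ) : ZMod N) ∈ B) : p ≤ ev B ∨ p ≤ od B := by
  classical
  have hE : Even N := ⟨p * s, by omega⟩
  have inj : Set.InjOn (fun j : ℕ => x + ((2 * (s * j) : ℕ) : ZMod N)) (Finset.range p) := by
    intro i hi j hj hij
    have hi' : i < p := by simpa using hi
    have hj' : j < p := by simpa using hj
    have h1 : ((2 * (s * i) : ℕ) : ZMod N) = ((2 * (s * j) : ℕ) : ZMod N) := add_left_cancel hij
    have h2 : s * i < s * p := Nat.mul_lt_mul_of_pos_left hi' hs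
    have h3 : s * j < s * p := Nat.mul_lt_mul_of_pos_left hj' hs
    have h4 : N = s * p * 2 := by rw [hN]; ring
    rw [ZMod.natCast_eq_natCast_iff, Nat.ModEq, Nat.mod_eq_of_lt (by omega),
      Nat.mod_eq_of_lt (by omega)] at h1
    exact Nat.eq_of_mul_eq_mul_left hs (by omega)
  by_cases hx : Even x.val
  · left
    have := Finset.card_le_card_of_injOn (s := Finset.range p)
      (t := B.filter fun a => Even a.val) _ (fun j _ => by
        simp only [Finset.coe_filter, Set.mem_ofPred_eq]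
        exact ⟨h j, (parity_add hE x _).2 hx⟩) inj
    rwa [Finset.card_range] at this
  · right
    have := Finset.card_le_card_of_injOn (s := Finset.range p)
      (t := B.filter fun a => ¬ Even a.val) _ (fun j _ => by
        simp only [Finset.coe_filter, Set.mem_ofPred_eq]
        exact ⟨h j, fun h2 => hx ((parity_add hE x _).1 h2)⟩) inj
    rwa [Finset.card_range] at this

theorem cyc_base {p : ℕ} (hp : p.Prime) (hp2 : p ≠ 2) :
    (X ^ p + 1 : ℤ[X]) = cyclotomic (p * 2) ℤ * (X + 1) := by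
  have h3 : (X ^ p - 1 : ℤ[X]) * (X ^ p + 1) = (X ^ p - 1) * (cyclotomic (p * 2) ℤ * (X + 1)) := by
    have e1 := prod_cyclotomic_eq_X_pow_sub_one (R := ℤ) (n := p * 2) (by have := hp.pos; omega)
    have e2 := prod_cyclotomic_eq_X_pow_sub_one (R := ℤ) (n := p) hp.pos
    have e3 : (p * 2).divisors = p.divisors ∪ {2, p * 2} := by
      rw [hp.divisors]
      ext d
      rw [Nat.mem_divisors]
      constructor
      · rintro ⟨h, -⟩
        obtain ⟨a, b, ha, hb, rfl⟩ := (Nat.dvd_mul).1 h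
        rcases (Nat.dvd_prime hp).1 ha with rfl | rfl <;>
          rcases (Nat.dvd_prime Nat.prime_two).1 hb with rfl | rfl <;> simp
      · intro h
        simp only [Finset.mem_union, Finset.mem_insert, Finset.mem_singleton] at h
        refine ⟨?_, by have := hp.pos; omega⟩
        rcases h with (rfl | rfl) | rfl | rfl
        · exact one_dvd _
        · exact Dvd.intro _ rfl
        · exact Dvd.intro_left _ rfl
        · exact dvd_rfl
    have e4 : Disjoint p.divisors ({2, p * 2} : Finset ℕ) := by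
      rw [hp.divisors, Finset.disjoint_left]
      have := hp.two_le
      intro d hd
      simp only [Finset.mem_insert, Finset.mem_singleton] at hd ⊢
      omega
    rw [e3, Finset.prod_union e4, e2, Finset.prod_pair (by have := hp.two_le; omega),
      cyclotomic_two] at e1
    rw [mul_comm (cyclotomic (p * 2) ℤ), e1]
    rw [pow_mul]
    ring
  have h4 : (X ^ p - 1 : ℤ[X]) ≠ 0 := X_pow_sub_C_ne_zero hp.pos 1
  exact mul_left_cancel₀ h4 h3

theorem cyc {p : ℕ} (hp : p.Prime) (hp2 : p ≠ 2) (s : ℕ) :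
    (X ^ (p ^ (s + 1)) + 1 : ℤ[X]) = cyclotomic (p ^ (s + 1) * 2) ℤ * (X ^ (p ^ s) + 1) := by
  induction s with
  | zero => simpa using cyc_base hp hp2
  | succ s ih =>
    have h := congrArg (expand ℤ p) ih
    rw [map_mul, cyclotomic_expand_eq_cyclotomic hp (Dvd.dvd.mul_right (dvd_pow_self p (by omega)) 2),
      map_add, map_add, map_pow, map_pow, expand_X, map_one, ← pow_mul, ← pow_mul] at h
    have e1 : p * p ^ (s + 1) = p ^ (s + 1 + 1) := by ring
    have e2 : p * p ^ s = p ^ (s + 1) := by ring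
    have e3 : p ^ (s + 1) * 2 * p = p ^ (s + 1 + 1) * 2 := by ring
    rw [e1, e2, e3] at h
    exact h

theorem alt {p : ℕ} (hp : p.Prime) (hp2 : p ≠ 2) (s : ℕ) {N : ℕ} [NeZero N]
    (hN : N = p ^ (s + 1) * 2) {ζ : ℂ} (hζ : IsPrimitiveRoot ζ N)
    (B : Finset (ZMod N)) (hB : ∑ b ∈ B, z ζ b = 0) (x : ZMod N) :
    ((if x ∈ B then 1 else 0 : ℤ) - if x + (p ^ (s + 1) : ℕ) ∈ B then 1 else 0) +
      ((if x + (p ^ s : ℕ) ∈ B then 1 else 0 : ℤ) -
        if x + (p ^ s : ℕ) + (p ^ (s + 1) : ℕ) ∈ B then 1 else 0) = 0 := by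
  classical
  have hn : 0 < N := Nat.pos_of_ne_zero (NeZero.ne N)
  have h1 : cyclotomic N ℤ ∣ ∑ b ∈ B, (X : ℤ[X]) ^ b.val := by
    rw [cyclotomic_eq_minpoly hζ hn]
    apply minpoly.isIntegrallyClosed_dvd (hζ.isIntegral hn)
    rw [map_sum]
    simpa [z] using hB
  obtain ⟨T, hT⟩ := h1
  have h2 := cyc hp hp2 s
  have h3 : (∑ b ∈ B, (X : ℤ[X]) ^ b.val) * (X ^ (p ^ s) + 1) * (X ^ (p ^ (s + 1)) - 1) =
      T * (X ^ N - 1) := by
    rw [hT, hN, pow_mul]
    linear_combination (-(T * (X ^ (p ^ (s + 1)) - 1))) * h2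
  have h4 := congrArg (aeval (AddMonoidAlgebra.single (1 : ZMod N) (1 : ℤ))) h3
  have hX : ∀ m : ℕ, (AddMonoidAlgebra.single (1 : ZMod N) (1 : ℤ)) ^ m =
      AddMonoidAlgebra.single (m : ZMod N) (1 : ℤ) := by
    intro m
    rw [AddMonoidAlgebra.single_pow, one_pow, nsmul_eq_mul, mul_one]
  have h5 : (AddMonoidAlgebra.single (0 : ZMod N) (1 : ℤ)) = 1 := rfl
  simp only [map_mul, map_sum, map_pow, map_add, map_sub, map_one, aeval_X, hX, ZMod.natCast_self,
    h5, sub_self, mul_zero, ZMod.natCast_val, ZMod.cast_id', id_eq] at h4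
  set β : AddMonoidAlgebra ℤ (ZMod N) := ∑ b ∈ B, AddMonoidAlgebra.single b (1 : ℤ) with hβ
  have h6 : ∀ y : ZMod N, β.coeff y = if y ∈ B then 1 else 0 := by
    intro y
    rw [hβ, AddMonoidAlgebra.coeff_sum, Finsupp.finsetSum_apply]
    simp [AddMonoidAlgebra.coeff_single, Finsupp.single_apply]
  have key : ∀ (f : AddMonoidAlgebra ℤ (ZMod N)) (a y : ZMod N),
      (f * AddMonoidAlgebra.single a 1).coeff y = f.coeff (y - a) := by
    intro f a y
    rw [AddMonoidAlgebra.coeff_mul_single_eq_coeff_mul (y - a)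
      (fun m' _ => by rw [eq_sub_iff_add_eq]), mul_one]
  generalize hP : ((p ^ (s + 1) : ℕ) : ZMod N) = P at h4 ⊢
  generalize hS : ((p ^ s : ℕ) : ZMod N) = S at h4 ⊢
  have h8 : β * AddMonoidAlgebra.single S 1 * AddMonoidAlgebra.single P 1 +
      β * AddMonoidAlgebra.single P 1 - β * AddMonoidAlgebra.single S 1 - β = 0 := by
    linear_combination h4
  have h9 := congrArg (fun g => g.coeff (x + S + P)) h8
  simp only [AddMonoidAlgebra.coeff_add, AddMonoidAlgebra.coeff_sub, Finsupp.add_apply,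
    Finsupp.sub_apply, key, h6, AddMonoidAlgebra.coeff_zero, Finsupp.zero_apply,
    add_sub_cancel_right] at h9
  have e1 : x + S + P - S = x + P := by ring
  rw [e1] at h9
  linear_combination h9

/-- a small set whose sum of roots of unity is zero is a union of cosets of the subgroup of order
two -/
theorem inv_of_sum {p : ℕ} (hp : p.Prime) (hp2 : p ≠ 2) (s : ℕ) {N : ℕ} [NeZero N]
    (hN : N = p ^ (s + 1) * 2) {ζ : ℂ} (hζ : IsPrimitiveRoot ζ N)
    (B : Finset (ZMod N)) (hB : ∑ b ∈ B, z ζ b = 0) (h1 : ev B < p) (h2 : od B < p) (x : ZMod N)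
    (hx : x ∈ B) : x + (p ^ (s + 1) : ℕ) ∈ B := by
  classical
  by_contra hno
  set F : ZMod N → ℤ := fun x => (if x ∈ B then 1 else 0 : ℤ) - if x + (p ^ (s + 1) : ℕ) ∈ B then 1 else 0
    with hF
  have hFF : ∀ x, F x + F (x + (p ^ s : ℕ)) = 0 := fun x => alt hp hp2 s hN hζ B hB x
  have h3 : ∀ j : ℕ, F (x + ((2 * (p ^ s * j) : ℕ) : ZMod N)) = 1 := by
    intro j
    induction j with
    | zero =>
      simp only [mul_zero, Nat.cast_zero, add_zero, hF]
      rw [if_pos hx, if_neg hno]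
      rfl
    | succ j ih =>
      have e : x + ((2 * (p ^ s * (j + 1)) : ℕ) : ZMod N) =
          x + ((2 * (p ^ s * j) : ℕ) : ZMod N) + (p ^ s : ℕ) + (p ^ s : ℕ) := by
        push_cast
        ring
      have a1 := hFF (x + ((2 * (p ^ s * j) : ℕ) : ZMod N))
      have a2 := hFF (x + ((2 * (p ^ s * j) : ℕ) : ZMod N) + (p ^ s : ℕ))
      rw [e]
      linarith
  have h4 : ∀ j : ℕ, x + ((2 * (p ^ s * j) : ℕ) : ZMod N) ∈ B := by
    intro j
    by_contra h5
    have h6 := h3 j
    simp only [hF] at h6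
    rw [if_neg h5] at h6
    split_ifs at h6 <;> omega
  rcases big (s := p ^ s) (pow_pos hp.pos s) (by rw [hN]; ring) B x h4 with h | h <;> omega

end Pool.Agent.H321.SN
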