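import Mathlib

set_option autoImplicit false

namespace Pool.Agent.H321.SN

open Equiv Finset

/-- the permanent of the matrix `x i ^ c j` -/
def pe {R : Type*} [CommRing R] {k : ℕ} (c : Fin k → ℕ) (x : Fin k → R) : R :=
  ∑ τ : Perm (Fin k), ∏ i, x (τ i) ^ c i

theorem criterion {k : ℕ} (c : Fin k → ℕ) (x y : Fin k → ℂ) (hx : pe c x ≠ 0)
    (hy : (Matrix.of fun i j => y i ^ c j : Matrix (Fin k) (Fin k) ℂ).det ≠ 0) :
    ∃ σ : Perm (Fin k), Function.Injective fun i => x i * y (σ i) := by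
  by_contra hcon
  push Not at hcon
  have h0 : ∀ σ : Perm (Fin k),
      (Matrix.of fun i j => (x i * y (σ i)) ^ c j : Matrix (Fin k) (Fin k) ℂ).det = 0 := by
    intro σ
    have h := hcon σ
    rw [Function.not_injective_iff] at h
    obtain ⟨a, b, hab, hne⟩ := h
    refine Matrix.det_zero_of_row_eq hne ?_
    funext j
    have hab' : x a * y (σ a) = x b * y (σ b) := hab
    simp only [Matrix.of_apply]
    rw [hab']
  have h1 : ∑ σ : Perm (Fin k), ((Perm.sign σ : ℤ) : ℂ) *
      (Matrix.of fun i j => (x i * y (σ i)) ^ c j : Matrix (Fin k) (Fin k) ℂ).det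
      = pe c x * (Matrix.of fun i j => y i ^ c j : Matrix (Fin k) (Fin k) ℂ).det := by
    have h2 : ∀ σ : Perm (Fin k), ((Perm.sign σ : ℤ) : ℂ) *
        (Matrix.of fun i j => (x i * y (σ i)) ^ c j : Matrix (Fin k) (Fin k) ℂ).det =
        ∑ τ : Perm (Fin k), (∏ i, x (τ i) ^ c i) *
          (((Perm.sign (σ * τ) : ℤ) : ℂ) * ∏ i, y ((σ * τ) i) ^ c i) := by
      intro σ
      rw [Matrix.det_apply', Finset.mul_sum]
      refine Finset.sum_congr rfl fun τ _ => ?_
      simp only [Matrix.of_apply, mul_pow, Finset.prod_mul_distrib, Perm.sign_mul, Perm.coe_mul,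
        Function.comp_apply]
      push_cast
      ring
    simp_rw [h2]
    rw [Finset.sum_comm]
    unfold pe
    rw [Finset.sum_mul]
    refine Finset.sum_congr rfl fun τ _ => ?_
    rw [← Finset.mul_sum]
    congr 1
    rw [Matrix.det_apply']
    exact Fintype.sum_equiv (Equiv.mulRight τ) _ _ (fun σ => rfl)
  have h3 : pe c x * (Matrix.of fun i j => y i ^ c j : Matrix (Fin k) (Fin k) ℂ).det = 0 := by
    rw [← h1]
    exact Finset.sum_eq_zero fun σ _ => by rw [h0 σ, mul_zero]
  exact (mul_ne_zero hx hy) h3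

/-- `det (y_i ^ (0, …, k-1)) ≠ 0` -/
theorem det_std {k : ℕ} (y : Fin k → ℂ) (hy : Function.Injective y) :
    (Matrix.of fun i j => y i ^ ((fun j : Fin k => (j : ℕ)) j) : Matrix (Fin k) (Fin k) ℂ).det ≠ 0 := by
  have h := (Matrix.det_vandermonde_ne_zero_iff (v := y)).2 hy
  exact h

end Pool.Agent.H321.SN
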