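import Pool.Agent.H321.SN.Coef

set_option autoImplicit false

namespace Pool.Agent.H321.SN

open Equiv Finset Polynomial

theorem ct_inj (k : ℕ) : Function.Injective (ct k) := by
  intro i j h
  have hi := i.2
  have hj := j.2
  unfold ct at h
  apply Fin.ext
  split_ifs at h <;> omega

theorem det_ct {k : ℕ} (hk : 0 < k) (y : Fin k → ℂ) (hy : Function.Injective y)
    (hs : ∑ i, y i ≠ 0) :
    (Matrix.of fun i j => y i ^ ct k j : Matrix (Fin k) (Fin k) ℂ).det ≠ 0 := by
  intro hdet
  rw [← Matrix.exists_mulVec_eq_zero_iff] at hdet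
  obtain ⟨v, hv, hM⟩ := hdet
  set f : ℂ[X] := ∑ j, C (v j) * X ^ ct k j with hf
  have hfc : ∀ j, f.coeff (ct k j) = v j := by
    intro j
    rw [hf, finsetSum_coeff, Finset.sum_eq_single j]
    · simp
    · intro b _ hb
      rw [coeff_C_mul_X_pow, if_neg]
      intro h
      exact hb (ct_inj k h.symm)
    · simp
  have hf0 : ∀ m, (∀ j, m ≠ ct k j) → f.coeff m = 0 := by
    intro m hm
    rw [hf, finsetSum_coeff]
    refine Finset.sum_eq_zero fun j _ => ?_
    rw [coeff_C_mul_X_pow, if_neg (hm j)]
  have hfe : ∀ i, f.eval (y i) = 0 := by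
    intro i
    have h1 := congrFun hM i
    rw [hf, eval_finsetSum]
    simp only [Matrix.mulVec, dotProduct, Matrix.of_apply, Pi.zero_apply] at h1
    rw [← h1]
    refine Finset.sum_congr rfl fun j _ => ?_
    rw [eval_mul, eval_C, eval_pow, eval_X, mul_comm]
  set l : Fin k := ⟨k - 1, by omega⟩ with hl
  have hcl : ct k l = k := by
    unfold ct
    rw [if_pos]
    simp only [hl]
    omega
  have hcm : ∀ j, ct k j ≠ k - 1 := by
    intro j
    have := j.2
    unfold ct
    split_ifs <;> omega
  have hcb : ∀ j, ct k j ≤ k := by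
    intro j
    have := j.2
    unfold ct
    split_ifs <;> omega
  set g : ℂ[X] := ∏ i : Fin k, (X - C (y i)) with hg
  have hgm : g.Monic := monic_prod_of_monic _ _ fun i _ => monic_X_sub_C _
  have hgd : g.natDegree = k := by
    rw [hg, natDegree_prod_of_monic _ _ (fun i _ => monic_X_sub_C _)]
    simp
  have hfg : f - C (v l) * g = 0 := by
    refine eq_zero_of_degree_lt_of_eval_index_eq_zero (s := Finset.univ) (v := y) (hy.injOn) ?_ ?_
    · rw [Finset.card_univ, Fintype.card_fin, degree_lt_iff_coeff_zero]
      intro m hm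
      rw [coeff_sub, coeff_C_mul]
      rcases hm.eq_or_lt with rfl | hm
      · have h1 : g.coeff k = 1 := by
          have := hgm.coeff_natDegree
          rwa [hgd] at this
        have h2 : f.coeff k = v l := by
          have := hfc l
          rwa [hcl] at this
        rw [h1, h2, mul_one, sub_self]
      · have hg0 : g.coeff m = 0 := coeff_eq_zero_of_natDegree_lt (by rw [hgd]; exact hm)
        rw [hg0, mul_zero, sub_zero]
        refine hf0 m fun j h => ?_
        have := hcb j
        omega
    · intro i _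
      rw [eval_sub, hfe, eval_mul, hg, eval_prod, Finset.prod_eq_zero (Finset.mem_univ i)]
      · simp
      · simp
  have h1 : (f - C (v l) * g).coeff (k - 1) = 0 := by rw [hfg, coeff_zero]
  have h2 : g.coeff (k - 1) = -∑ i, y i := by
    have := prod_X_sub_C_coeff_card_pred (Finset.univ : Finset (Fin k)) y
      (by rw [Finset.card_univ, Fintype.card_fin]; exact hk)
    rw [Finset.card_univ, Fintype.card_fin] at this
    exact this
  rw [coeff_sub, coeff_C_mul, h2, hf0 (k - 1) (fun j h => hcm j h.symm), zero_sub, neg_eq_zero,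
    mul_eq_zero, neg_eq_zero] at h1
  have h3 : v l = 0 := h1.resolve_right hs
  apply hv
  funext j
  rw [← hfc j]
  rw [h3, C_0, zero_mul, sub_zero] at hfg
  rw [hfg, coeff_zero]
  rfl

end Pool.Agent.H321.SN
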