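import Pool.Agent.H321.SN.Main

set_option autoImplicit false

namespace Pool.Agent.H321.SN

open Equiv Finset

variable {p : ℕ} [Fact p.Prime]

/-- a transversal of `M(A, B)` -/
def HasTransversal {n : ℕ} (A B : Finset (ZMod n)) : Prop :=
  ∃ f : ZMod n → ZMod n, Set.BijOn f (A : Set (ZMod n)) (B : Set (ZMod n)) ∧
    Set.InjOn (fun a => a + f a) (A : Set (ZMod n))

/-- the number of even elements -/
def ev {n : ℕ} (A : Finset (ZMod n)) : ℕ := (A.filter fun a => Even a.val).card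

/-- the number of odd elements -/
def od {n : ℕ} (A : Finset (ZMod n)) : ℕ := (A.filter fun a => ¬ Even a.val).card

theorem ev_add_od {n : ℕ} (A : Finset (ZMod n)) : ev A + od A = A.card :=
  Finset.card_filter_add_card_filter_not _

theorem exists_enum {n k : ℕ} (A : Finset (ZMod n)) (hA : A.card = k) :
    ∃ a : Fin k → ZMod n, Function.Injective a ∧ (∀ i, a i ∈ A) ∧ (∀ x ∈ A, ∃ i, a i = x) ∧
      (odds a).card = od A := by
  classical
  subst hA
  refine ⟨fun i => (A.equivFin.symm i : ZMod n), ?_, fun i => (A.equivFin.symm i).2, ?_, ?_⟩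
  · intro i j h
    exact A.equivFin.symm.injective (Subtype.ext h)
  · intro x hx
    exact ⟨A.equivFin ⟨x, hx⟩, by simp⟩
  · unfold odds od
    refine Finset.card_bij (fun i _ => (A.equivFin.symm i : ZMod n)) ?_ ?_ ?_
    · intro i hi
      rw [Finset.mem_filter] at hi ⊢
      exact ⟨(A.equivFin.symm i).2, hi.2⟩
    · intro i _ j _ h
      exact A.equivFin.symm.injective (Subtype.ext h)
    · intro x hx
      rw [Finset.mem_filter] at hx
      refine ⟨A.equivFin ⟨x, hx.1⟩, ?_, by simp⟩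
      rw [Finset.mem_filter]
      refine ⟨mem_univ _, ?_⟩
      simpa using hx.2

theorem trans_of_perm {n k : ℕ} {A B : Finset (ZMod n)} {a b : Fin k → ZMod n}
    (ha : Function.Injective a) (hb : Function.Injective b) (ha1 : ∀ i, a i ∈ A)
    (hb1 : ∀ i, b i ∈ B) (ha2 : ∀ x ∈ A, ∃ i, a i = x) (hb2 : ∀ x ∈ B, ∃ i, b i = x)
    (σ : Perm (Fin k)) (hσ : Function.Injective fun i => a i + b (σ i)) : HasTransversal A B := by
  classical
  rcases Nat.eq_zero_or_pos k with hk | hk
  · subst hk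
    have hA : A = ∅ := by
      rw [Finset.eq_empty_iff_forall_notMem]
      intro x hx
      obtain ⟨i, -⟩ := ha2 x hx
      exact i.elim0
    have hB : B = ∅ := by
      rw [Finset.eq_empty_iff_forall_notMem]
      intro x hx
      obtain ⟨i, -⟩ := hb2 x hx
      exact i.elim0
    subst hA hB
    exact ⟨id, by simp, by simp⟩
  · have : Nonempty (Fin k) := ⟨⟨0, hk⟩⟩
    have key : ∀ i, Function.invFun a (a i) = i := Function.leftInverse_invFun ha
    refine ⟨fun x => b (σ (Function.invFun a x)), ⟨?_, ?_, ?_⟩, ?_⟩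
    · intro x _
      exact hb1 _
    · intro x hx y hy h
      obtain ⟨i, rfl⟩ := ha2 x hx
      obtain ⟨j, rfl⟩ := ha2 y hy
      simp only [key] at h
      rw [σ.injective (hb h)]
    · intro y hy
      obtain ⟨j, rfl⟩ := hb2 y hy
      refine ⟨a (σ.symm j), ha1 _, ?_⟩
      simp only [key]
      rw [Equiv.apply_symm_apply]
    · intro x hx y hy h
      obtain ⟨i, rfl⟩ := ha2 x hx
      obtain ⟨j, rfl⟩ := ha2 y hy
      simp only [key] at h
      rw [hσ h]

theorem both (hp2 : p ≠ 2) {r : ℕ} (hr : 0 < r) (A B : Finset (ZMod (p ^ r * 2)))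
    (hAB : A.card = B.card) (h1 : ev A < p) (h2 : od A < p)
    (h : (Odd A.card ∨ Even (od A)) ∨ (ev B < p ∧ od B < p ∧ ev B ≠ od B)) :
    HasTransversal A B ∧ HasTransversal B A := by
  obtain ⟨a, ha, ha1, ha2, ha3⟩ := exists_enum A rfl
  obtain ⟨b, hb, hb1, hb2, hb3⟩ := exists_enum (k := A.card) B hAB.symm
  have e1 := ev_add_od A
  have e2 := ev_add_od B
  obtain ⟨σ, hσ⟩ := main_fin hp2 hr a b hb (by rw [ha3]; exact h2) (by rw [ha3]; omega) (by
    rcases h with h | ⟨h3, h4, h5⟩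
    · left
      rw [ha3]; exact h
    · right
      rw [hb3]
      exact ⟨h4, by omega, by omega⟩)
  refine ⟨trans_of_perm ha hb ha1 hb1 ha2 hb2 σ hσ,
    trans_of_perm hb ha hb1 ha1 hb2 ha2 σ⁻¹ ?_⟩
  intro i j hij
  have h5 : a (σ⁻¹ i) + b (σ (σ⁻¹ i)) = a (σ⁻¹ j) + b (σ (σ⁻¹ j)) := by
    have hij' : b i + a (σ⁻¹ i) = b j + a (σ⁻¹ j) := hij
    have h6 : ∀ i, σ (σ⁻¹ i) = i := fun i => by simp
    rw [h6, h6, add_comm, hij', add_comm]
  exact σ⁻¹.injective (hσ h5)

end Pool.Agent.H321.SN
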