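import Pool.Agent.H321.SN.Coset

set_option autoImplicit false

namespace Pool.Agent.H321.SN

open Equiv Finset Polynomial

variable {p : ℕ} [Fact p.Prime]

theorem main_core (hp2 : p ≠ 2) {r : ℕ} (hr : 0 < r) {ζ : ℂ} (hζ : IsPrimitiveRoot ζ (p ^ r * 2))
    {k : ℕ} (a b : Fin k → ZMod (p ^ r * 2))
    (hb : Function.Injective b) (h1 : (odds a).card < p) (h2 : k - (odds a).card < p)
    (h : (Odd k ∨ Even (odds a).card) ∨ ∑ i, z ζ (b i) ≠ 0) :
    ∃ σ : Perm (Fin k), Function.Injective fun i => a i + b (σ i) := by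
  classical
  have hp := Fact.out (p := p.Prime)
  have hn : p ^ r * 2 ≠ 0 := by have := pow_pos hp.pos r; omega
  have : NeZero (p ^ r * 2) := ⟨hn⟩
  have fin : (∃ σ : Perm (Fin k), Function.Injective fun i => z ζ (a i) * z ζ (b (σ i))) →
      ∃ σ : Perm (Fin k), Function.Injective fun i => a i + b (σ i) := by
    rintro ⟨σ, hσ⟩
    refine ⟨σ, fun i j hij => hσ ?_⟩
    have hij' : a i + b (σ i) = a j + b (σ j) := hij
    simp only
    rw [← z_add hζ, ← z_add hζ, hij']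
  have hzb : Function.Injective (fun i => z ζ (b i)) := (z_inj hζ).comp hb
  have hVa : ∀ i, (-1 : ZMod p) ^ (a i).val = if i ∈ odds a then -1 else 1 := by
    intro i
    rw [neg_one_pow_val]
    simp [odds]
  apply fin
  by_cases hc : Odd k ∨ Even (odds a).card
  · exact criterion (cs k) _ (fun i => z ζ (b i)) (pe_z hp2 hr hζ _ a (pe_cs _ _ hVa h1 h2 hc))
      (det_std _ hzb)
  · have h3 := h.resolve_left hc
    rw [not_or, Nat.not_odd_iff_even, Nat.not_even_iff_odd] at hc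
    have hk : 0 < k := by
      have := hc.2.pos
      have h6 := Finset.card_le_univ (odds a)
      rw [Fintype.card_fin] at h6
      omega
    exact criterion (ct k) _ (fun i => z ζ (b i)) (pe_z hp2 hr hζ _ a
      (pe_ct hp2 _ _ hVa h1 h2 hc.1 hc.2)) (det_ct hk _ hzb h3)

theorem both2 (hp2 : p ≠ 2) {r : ℕ} (hr : 0 < r) {ζ : ℂ} (hζ : IsPrimitiveRoot ζ (p ^ r * 2))
    (A B : Finset (ZMod (p ^ r * 2)))
    (hAB : A.card = B.card) (h1 : ev A < p) (h2 : od A < p)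
    (h : (Odd A.card ∨ Even (od A)) ∨ ∑ b ∈ B, z ζ b ≠ 0) :
    HasTransversal A B ∧ HasTransversal B A := by
  classical
  obtain ⟨a, ha, ha1, ha2, ha3⟩ := exists_enum A rfl
  obtain ⟨b, hb, hb1, hb2, hb3⟩ := exists_enum (k := A.card) B hAB.symm
  have e1 := ev_add_od A
  have e3 : ∑ i, z ζ (b i) = ∑ x ∈ B, z ζ x := by
    refine Finset.sum_bij (fun i _ => b i) (fun i _ => hb1 i) (fun i _ j _ h => hb h) ?_
      (fun i _ => rfl)
    intro x hx
    obtain ⟨i, hi⟩ := hb2 x hx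
    exact ⟨i, Finset.mem_univ _, hi⟩
  obtain ⟨σ, hσ⟩ := main_core hp2 hr hζ a b hb (by rw [ha3]; exact h2) (by rw [ha3]; omega) (by
    rcases h with h | h
    · left
      rw [ha3]; exact h
    · right
      rw [e3]
      exact h)
  refine ⟨trans_of_perm ha hb ha1 hb1 ha2 hb2 σ hσ,
    trans_of_perm hb ha hb1 ha1 hb2 ha2 σ⁻¹ ?_⟩
  intro i j hij
  have h5 : a (σ⁻¹ i) + b (σ (σ⁻¹ i)) = a (σ⁻¹ j) + b (σ (σ⁻¹ j)) := by
    have hij' : b i + a (σ⁻¹ i) = b j + a (σ⁻¹ j) := hij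
    have h6 : ∀ i, σ (σ⁻¹ i) = i := fun i => by simp
    rw [h6, h6, add_comm, hij', add_comm]
  exact σ⁻¹.injective (hσ h5)

/-- the final form -/
theorem coset (hp2 : p ≠ 2) {r : ℕ} (hr : 0 < r) (A B : Finset (ZMod (p ^ r * 2)))
    (hAB : A.card = B.card) (h1 : ev A < p) (h2 : od A < p) (h : ¬ (Odd A.card ∨ Even (od A)) →
      ev B < p ∧ od B < p ∧ ∃ x ∈ B, x + ((p ^ r : ℕ) : ZMod (p ^ r * 2)) ∉ B) :
    HasTransversal A B ∧ HasTransversal B A := by
  have hp := Fact.out (p := p.Prime)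
  have hn : p ^ r * 2 ≠ 0 := by have := pow_pos hp.pos r; omega
  have : NeZero (p ^ r * 2) := ⟨hn⟩
  have hζ : IsPrimitiveRoot (Complex.exp (2 * Real.pi * Complex.I / (p ^ r * 2 : ℕ))) (p ^ r * 2) :=
    Complex.isPrimitiveRoot_exp _ hn
  apply both2 hp2 hr hζ A B hAB h1 h2
  by_cases hc : Odd A.card ∨ Even (od A)
  · exact Or.inl hc
  · right
    intro hs
    obtain ⟨h3, h4, x, hx, hx2⟩ := h hc
    obtain ⟨s, rfl⟩ : ∃ s, r = s + 1 := ⟨r - 1, by omega⟩
    exact hx2 (inv_of_sum hp hp2 s rfl hζ B hs h3 h4 x hx)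

end Pool.Agent.H321.SN
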