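import Pool.Agent.H321.SN.Det

set_option autoImplicit false

namespace Pool.Agent.H321.SN

open Equiv Finset Polynomial

variable {p : ℕ} [Fact p.Prime]

theorem map_pe {R S : Type*} [CommRing R] [CommRing S] (f : R →+* S) {k : ℕ} (c : Fin k → ℕ)
    (x : Fin k → R) : f (pe c x) = pe c (fun i => f (x i)) := by
  unfold pe
  simp only [map_sum, map_prod, map_pow]

/-- reduction modulo `p` -/
theorem red (hp2 : p ≠ 2) {r : ℕ} (hr : 0 < r) {ζ : ℂ} (hζ : IsPrimitiveRoot ζ (p ^ r * 2)) (Q : ℤ[X])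
    (hQ : eval₂ (Int.castRingHom ℂ) ζ Q = 0) : eval₂ (Int.castRingHom (ZMod p)) (-1) Q = 0 := by
  have hp := Fact.out (p := p.Prime)
  have hn : 0 < p ^ r * 2 := by have := pow_pos hp.pos r; omega
  have h1 : cyclotomic (p ^ r * 2) ℤ ∣ Q := by
    rw [cyclotomic_eq_minpoly hζ hn]
    exact minpoly.isIntegrallyClosed_dvd (hζ.isIntegral hn) hQ
  obtain ⟨T, rfl⟩ := h1
  rw [eval₂_mul, eval₂_eq_eval_map, map_cyclotomic, cyclotomic_mul_prime_pow_eq (ZMod p) (p := p)
    (m := 2) (fun h => hp2 ((Nat.prime_dvd_prime_iff_eq hp Nat.prime_two).1 h)) hr, cyclotomic_two]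
  have h2 : p ^ r - p ^ (r - 1) ≠ 0 := by
    have : p ^ (r - 1) < p ^ r := Nat.pow_lt_pow_right hp.one_lt (by omega)
    omega
  simp [h2]

theorem neg_one_pow_val {a : ℕ} : (-1 : ZMod p) ^ a = if ¬ Even a then -1 else 1 := by
  by_cases h : Even a
  · rw [if_neg (not_not.2 h), h.neg_one_pow]
  · rw [if_pos h, (Nat.not_even_iff_odd.1 h).neg_one_pow]

/-- the roots of unity -/
noncomputable def z (ζ : ℂ) {n : ℕ} (a : ZMod n) : ℂ := ζ ^ a.val

theorem z_add {ζ : ℂ} {n : ℕ} [NeZero n] (hζ : IsPrimitiveRoot ζ n) (a b : ZMod n) :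
    z ζ (a + b) = z ζ a * z ζ b := by
  unfold z
  rw [ZMod.val_add, ← pow_add]
  exact (pow_eq_pow_mod _ hζ.pow_eq_one).symm

theorem z_inj {ζ : ℂ} {n : ℕ} [NeZero n] (hζ : IsPrimitiveRoot ζ n) :
    Function.Injective (z ζ : ZMod n → ℂ) := by
  intro a b h
  exact ZMod.val_injective n (hζ.pow_inj (ZMod.val_lt a) (ZMod.val_lt b) h)

/-- the permanent is not zero if it is not zero modulo `p` -/
theorem pe_z (hp2 : p ≠ 2) {r : ℕ} (hr : 0 < r) {ζ : ℂ} (hζ : IsPrimitiveRoot ζ (p ^ r * 2)) {k : ℕ}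
    (c : Fin k → ℕ) (a : Fin k → ZMod (p ^ r * 2))
    (h : pe c (fun i => (-1 : ZMod p) ^ (a i).val) ≠ 0) : pe c (fun i => z ζ (a i)) ≠ 0 := by
  intro h0
  apply h
  have h1 := map_pe (eval₂RingHom (Int.castRingHom ℂ) ζ) c (fun i => (X : ℤ[X]) ^ (a i).val)
  have h2 := map_pe (eval₂RingHom (Int.castRingHom (ZMod p)) (-1)) c (fun i => (X : ℤ[X]) ^ (a i).val)
  simp only [coe_eval₂RingHom, eval₂_X_pow] at h1 h2
  rw [← h2]
  apply red hp2 hr hζ
  rw [h1]
  exact h0

theorem sum_z (hp2 : p ≠ 2) {r : ℕ} (hr : 0 < r) {ζ : ℂ} (hζ : IsPrimitiveRoot ζ (p ^ r * 2)) {k : ℕ}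
    (a : Fin k → ZMod (p ^ r * 2)) (h : ∑ i, (-1 : ZMod p) ^ (a i).val ≠ 0) :
    ∑ i, z ζ (a i) ≠ 0 := by
  intro h0
  apply h
  have h1 := map_sum (eval₂RingHom (Int.castRingHom ℂ) ζ) (fun i => (X : ℤ[X]) ^ (a i).val) univ
  have h2 := map_sum (eval₂RingHom (Int.castRingHom (ZMod p)) (-1)) (fun i => (X : ℤ[X]) ^ (a i).val) univ
  simp only [coe_eval₂RingHom, eval₂_X_pow] at h1 h2
  rw [← h2]
  apply red hp2 hr hζ
  rw [h1]
  exact h0

/-- the set of indices of odd elements -/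
def odds {n k : ℕ} (a : Fin k → ZMod n) : Finset (Fin k) := univ.filter fun i => ¬ Even (a i).val

theorem main_fin (hp2 : p ≠ 2) {r : ℕ} (hr : 0 < r) {k : ℕ} (a b : Fin k → ZMod (p ^ r * 2))
    (hb : Function.Injective b) (h1 : (odds a).card < p) (h2 : k - (odds a).card < p)
    (h : (Odd k ∨ Even (odds a).card) ∨ ((odds b).card < p ∧ k - (odds b).card < p ∧
      2 * (odds b).card ≠ k)) :
    ∃ σ : Perm (Fin k), Function.Injective fun i => a i + b (σ i) := by
  classical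
  have hp := Fact.out (p := p.Prime)
  have hn : p ^ r * 2 ≠ 0 := by have := pow_pos hp.pos r; omega
  have : NeZero (p ^ r * 2) := ⟨hn⟩
  set ζ := Complex.exp (2 * Real.pi * Complex.I / (p ^ r * 2 : ℕ)) with hζd
  have hζ : IsPrimitiveRoot ζ (p ^ r * 2) := Complex.isPrimitiveRoot_exp _ hn
  have fin : (∃ σ : Perm (Fin k), Function.Injective fun i => z ζ (a i) * z ζ (b (σ i))) →
      ∃ σ : Perm (Fin k), Function.Injective fun i => a i + b (σ i) := by
    rintro ⟨σ, hσ⟩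
    refine ⟨σ, fun i j hij => hσ ?_⟩
    have hij' : a i + b (σ i) = a j + b (σ j) := hij
    simp only
    rw [← z_add hζ, ← z_add hζ, hij']
  have hzb : Function.Injective (fun i => z ζ (b i)) := (z_inj hζ).comp hb
  have hVa : ∀ i, (-1 : ZMod p) ^ (a i).val = if i ∈ odds a then -1 else 1 := by
    intro i
    rw [neg_one_pow_val]
    simp [odds]
  apply fin
  by_cases hc : Odd k ∨ Even (odds a).card
  · exact criterion (cs k) _ (fun i => z ζ (b i)) (pe_z hp2 hr hζ _ a (pe_cs _ _ hVa h1 h2 hc))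
      (det_std _ hzb)
  · obtain ⟨h3, h4, h5⟩ := h.resolve_left hc
    rw [not_or, Nat.not_odd_iff_even, Nat.not_even_iff_odd] at hc
    have hk : 0 < k := by
      have := hc.2.pos
      have h6 := Finset.card_le_univ (odds a)
      rw [Fintype.card_fin] at h6
      omega
    refine criterion (ct k) _ (fun i => z ζ (b i)) (pe_z hp2 hr hζ _ a
      (pe_ct hp2 _ _ hVa h1 h2 hc.1 hc.2)) (det_ct hk _ hzb (sum_z hp2 hr hζ b ?_))
    have hVb : ∀ i, (-1 : ZMod p) ^ (b i).val = if i ∈ odds b then -1 else 1 := by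
      intro i
      rw [neg_one_pow_val]
      simp [odds]
    simp only [hVb]
    rw [Finset.sum_ite]
    have e1 : (univ.filter fun i => i ∈ odds b) = odds b := by ext; simp
    have e2 : (univ.filter fun i => i ∉ odds b).card = k - (odds b).card := by
      have : (univ.filter fun i => i ∉ odds b) = (odds b)ᶜ := by ext; simp
      rw [this, Finset.card_compl, Fintype.card_fin]
    rw [Finset.sum_const, Finset.sum_const, e1, e2, nsmul_eq_mul, nsmul_eq_mul, mul_one]
    have h6 := Finset.card_le_univ (odds b)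
    rw [Fintype.card_fin] at h6
    intro h0
    have h7 : ((k - (odds b).card : ℕ) : ZMod p) = ((odds b).card : ℕ) := by
      linear_combination h0
    rw [ZMod.natCast_eq_natCast_iff, Nat.ModEq, Nat.mod_eq_of_lt h4, Nat.mod_eq_of_lt h3] at h7
    omega

end Pool.Agent.H321.SN
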