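import Pool.Agent.H321.SN.Crit

set_option autoImplicit false

namespace Pool.Agent.H321.SN

open Equiv Finset Polynomial

/-- The number of permutations with a prescribed image of `V`. -/
theorem card_fiber {k : ℕ} (V S : Finset (Fin k)) (h : S.card = V.card) :
    (univ.filter fun τ : Perm (Fin k) => V.map τ.toEmbedding = S).card =
      (univ.filter fun τ : Perm (Fin k) => V.map τ.toEmbedding = V).card := by
  classical
  -- a permutation mapping V to S
  obtain ⟨π, hπ⟩ : ∃ π : Perm (Fin k), V.map π.toEmbedding = S := by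
    have e : {x // x ∈ V} ≃ {x // x ∈ S} := Finset.equivOfCardEq h.symm
    refine ⟨e.extendSubtype, ?_⟩
    apply Finset.eq_of_subset_of_card_le
    · intro x hx
      rw [Finset.mem_map] at hx
      obtain ⟨a, ha, rfl⟩ := hx
      exact Equiv.extendSubtype_mem e a ha
    · rw [Finset.card_map, h]
  refine Finset.card_bij (fun τ _ => π⁻¹ * τ) ?_ ?_ ?_
  · intro τ hτ
    rw [Finset.mem_filter] at hτ ⊢
    refine ⟨mem_univ _, ?_⟩
    ext x
    simp only [Finset.mem_map, Equiv.coe_toEmbedding, Perm.coe_mul, Function.comp_apply]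
    constructor
    · rintro ⟨a, ha, rfl⟩
      have h1 : τ a ∈ S := by
        rw [← hτ.2]; exact Finset.mem_map_of_mem _ ha
      rw [← hπ, Finset.mem_map] at h1
      obtain ⟨b, hb, hb2⟩ := h1
      have : π⁻¹ (τ a) = b := by
        rw [Perm.inv_eq_iff_eq]; exact hb2.symm
      rw [this]; exact hb
    · intro hx
      have h1 : π x ∈ S := by rw [← hπ]; exact Finset.mem_map_of_mem _ hx
      rw [← hτ.2, Finset.mem_map] at h1
      obtain ⟨b, hb, hb2⟩ := h1
      refine ⟨b, hb, ?_⟩
      rw [Perm.inv_eq_iff_eq]; exact hb2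
  · intro a _ b _ hab
    exact mul_left_cancel hab
  · intro τ hτ
    rw [Finset.mem_filter] at hτ
    refine ⟨π * τ, ?_, by simp⟩
    rw [Finset.mem_filter]
    refine ⟨mem_univ _, ?_⟩
    rw [← hπ]
    ext x
    simp only [Finset.mem_map, Equiv.coe_toEmbedding, Perm.coe_mul, Function.comp_apply]
    constructor
    · rintro ⟨a, ha, rfl⟩
      refine ⟨τ a, ?_, rfl⟩
      have : τ a ∈ V.map τ.toEmbedding := Finset.mem_map_of_mem _ ha
      rwa [hτ.2] at this
    · rintro ⟨a, ha, rfl⟩
      rw [← hτ.2, Finset.mem_map] at ha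
      obtain ⟨b, hb, rfl⟩ := ha
      exact ⟨b, hb, rfl⟩

theorem sum_perm {R : Type*} [CommRing R] {k : ℕ} (V : Finset (Fin k)) (g : Finset (Fin k) → R) :
    ∃ c : ℕ, c * (k.choose V.card) = k.factorial ∧
      ∑ τ : Perm (Fin k), g (V.map τ.toEmbedding) =
        c * ∑ S ∈ powersetCard V.card univ, g S := by
  classical
  refine ⟨(univ.filter fun τ : Perm (Fin k) => V.map τ.toEmbedding = V).card, ?_, ?_⟩
  · have h1 : ∑ S ∈ powersetCard V.card (univ : Finset (Fin k)),
        (univ.filter fun τ : Perm (Fin k) => V.map τ.toEmbedding = S).card =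
        (univ : Finset (Perm (Fin k))).card :=
      (Finset.card_eq_sum_card_fiberwise (fun τ _ => by
        simp [Finset.mem_powersetCard])).symm
    rw [Finset.card_univ, Fintype.card_perm, Fintype.card_fin] at h1
    rw [← h1, Finset.sum_congr rfl (fun S hS => card_fiber V S (Finset.mem_powersetCard.1 hS).2),
      Finset.sum_const, Finset.card_powersetCard, Finset.card_univ, Fintype.card_fin, smul_eq_mul,
      mul_comm]
  · have h1 : ∑ τ : Perm (Fin k), g (V.map τ.toEmbedding) =
        ∑ S ∈ powersetCard V.card (univ : Finset (Fin k)),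
          ∑ τ ∈ univ.filter (fun τ : Perm (Fin k) => V.map τ.toEmbedding = S),
            g (V.map τ.toEmbedding) :=
      (Finset.sum_fiberwise_of_maps_to (fun τ _ => by simp [Finset.mem_powersetCard]) _).symm
    rw [h1, Finset.mul_sum]
    refine Finset.sum_congr rfl fun S hS => ?_
    rw [Finset.sum_congr rfl (g := fun _ => g S)
      (fun τ hτ => by rw [(Finset.mem_filter.1 hτ).2]), Finset.sum_const, nsmul_eq_mul,
      card_fiber V S (Finset.mem_powersetCard.1 hS).2]

/-- The permanent of a matrix with rows `s_i ^ c_j`, `s_i = ± 1`. -/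
theorem pe_sign {R : Type*} [CommRing R] {k : ℕ} (c : Fin k → ℕ) (s : Fin k → R)
    (V : Finset (Fin k)) (hV : ∀ i, s i = if i ∈ V then -1 else 1) :
    ∃ m : ℕ, m * (k.choose V.card) = k.factorial ∧
      pe c s = m * (∏ j : Fin k, (X + C ((-1 : R) ^ c j))).coeff (k - V.card) := by
  classical
  obtain ⟨m, hm, h⟩ := sum_perm V (fun S => ∏ i ∈ S, (-1 : R) ^ c i)
  refine ⟨m, hm, ?_⟩
  have hle : V.card ≤ k := by
    have := Finset.card_le_univ V
    rwa [Fintype.card_fin] at this
  have e1 : pe c s = ∑ τ : Perm (Fin k), ∏ i ∈ V.map τ.toEmbedding, (-1 : R) ^ c i := by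
    unfold pe
    refine Fintype.sum_equiv (Equiv.inv (Perm (Fin k))) _ _ fun τ => ?_
    rw [← Finset.prod_subset (Finset.subset_univ (V.map ((Equiv.inv (Perm (Fin k))) τ).toEmbedding))]
    · refine Finset.prod_congr rfl fun i hi => ?_
      rw [Finset.mem_map] at hi
      obtain ⟨a, ha, rfl⟩ := hi
      rw [hV, if_pos]
      simpa using ha
    · intro i _ hi
      rw [hV, if_neg, one_pow]
      intro h2
      apply hi
      rw [Finset.mem_map]
      exact ⟨τ i, h2, by simp⟩
  rw [e1, h]
  congr 1
  rw [Finset.prod_X_add_C_coeff]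
  · rw [Finset.card_univ, Fintype.card_fin, Nat.sub_sub_self hle]
  · rw [Finset.card_univ, Fintype.card_fin]; omega

end Pool.Agent.H321.SN
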