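import Pool.Agent.H321.SN.Fin2

set_option autoImplicit false

namespace Pool.Agent.H321.SN

open Equiv Finset Polynomial

variable {p : ℕ} [Fact p.Prime]

theorem pe_mul {R : Type*} [CommRing R] {k : ℕ} (c : Fin k → ℕ) (w : R) (x : Fin k → R) :
    pe c (fun i => w * x i) = w ^ (∑ i, c i) * pe c x := by
  unfold pe
  rw [Finset.mul_sum]
  refine Finset.sum_congr rfl fun τ _ => ?_
  simp only [mul_pow, Finset.prod_mul_distrib, Finset.prod_pow_eq_pow_sum]

/-- `A = a₀ + d A'` with `A'` small in `ℤ / 2 p ^ r`, `n = d (2 p ^ r)`, and any `B` in `ℤ / n`. -/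
theorem sub_core (hp2 : p ≠ 2) {r : ℕ} (hr : 0 < r) {n d : ℕ} (hd : 0 < d) (hn : n = d * (p ^ r * 2))
    {k : ℕ} (a₀ : ZMod n) (a : Fin k → ZMod (p ^ r * 2)) (b : Fin k → ZMod n)
    (hb : Function.Injective b) (h1 : (odds a).card < p) (h2 : k - (odds a).card < p)
    (h : Odd k ∨ Even (odds a).card) :
    ∃ σ : Perm (Fin k), Function.Injective fun i =>
      (a₀ + ((d * (a i).val : ℕ) : ZMod n)) + b (σ i) := by
  classical
  have hp := Fact.out (p := p.Prime)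
  have hn0 : p ^ r * 2 ≠ 0 := by have := pow_pos hp.pos r; omega
  have hn1 : n ≠ 0 := by rw [hn]; exact mul_ne_zero hd.ne' hn0
  have : NeZero (p ^ r * 2) := ⟨hn0⟩
  have : NeZero n := ⟨hn1⟩
  have hζ : IsPrimitiveRoot (Complex.exp (2 * Real.pi * Complex.I / (n : ℕ))) n :=
    Complex.isPrimitiveRoot_exp _ hn1
  set ζ := Complex.exp (2 * Real.pi * Complex.I / (n : ℕ)) with hζd
  have hζ2 : IsPrimitiveRoot (ζ ^ d) (p ^ r * 2) := hζ.pow (Nat.pos_of_ne_zero hn1) hn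
  have hz : ∀ i, z ζ (a₀ + ((d * (a i).val : ℕ) : ZMod n)) = z ζ a₀ * z (ζ ^ d) (a i) := by
    intro i
    rw [z_add hζ]
    congr 1
    unfold z
    rw [← pow_mul, ZMod.val_natCast]
    exact (pow_eq_pow_mod _ hζ.pow_eq_one).symm
  have fin : (∃ σ : Perm (Fin k), Function.Injective fun i =>
      z ζ (a₀ + ((d * (a i).val : ℕ) : ZMod n)) * z ζ (b (σ i))) →
      ∃ σ : Perm (Fin k), Function.Injective fun i =>
        (a₀ + ((d * (a i).val : ℕ) : ZMod n)) + b (σ i) := by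
    rintro ⟨σ, hσ⟩
    refine ⟨σ, fun i j hij => hσ ?_⟩
    have hij' : a₀ + ((d * (a i).val : ℕ) : ZMod n) + b (σ i) =
      a₀ + ((d * (a j).val : ℕ) : ZMod n) + b (σ j) := hij
    simp only
    rw [← z_add hζ, ← z_add hζ, hij']
  have hzb : Function.Injective (fun i => z ζ (b i)) := (z_inj hζ).comp hb
  have hVa : ∀ i, (-1 : ZMod p) ^ (a i).val = if i ∈ odds a then -1 else 1 := by
    intro i
    rw [neg_one_pow_val]
    simp [odds]
  apply fin
  refine criterion (cs k) _ (fun i => z ζ (b i)) ?_ (det_std _ hzb)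
  simp only [hz]
  rw [pe_mul]
  refine mul_ne_zero (pow_ne_zero _ ?_) (pe_z hp2 hr hζ2 _ a (pe_cs _ _ hVa h1 h2 h))
  exact pow_ne_zero _ (Complex.exp_ne_zero _)

theorem sub_fin (hp2 : p ≠ 2) {r : ℕ} (hr : 0 < r) {n d : ℕ} (hd : 0 < d) (hn : n = d * (p ^ r * 2))
    (a₀ : ZMod n) (A : Finset (ZMod (p ^ r * 2))) (B : Finset (ZMod n)) (hAB : A.card = B.card)
    (h1 : ev A < p) (h2 : od A < p) (h : Odd A.card ∨ Even (od A)) :
    HasTransversal (A.image fun x => a₀ + ((d * x.val : ℕ) : ZMod n)) B := by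
  classical
  have hp := Fact.out (p := p.Prime)
  have hn0 : p ^ r * 2 ≠ 0 := by have := pow_pos hp.pos r; omega
  have : NeZero (p ^ r * 2) := ⟨hn0⟩
  obtain ⟨a, ha, ha1, ha2, ha3⟩ := exists_enum A rfl
  obtain ⟨b, hb, hb1, hb2, hb3⟩ := exists_enum (k := A.card) B hAB.symm
  have e1 := ev_add_od A
  obtain ⟨σ, hσ⟩ := sub_core hp2 hr hd hn a₀ a b hb (by rw [ha3]; exact h2) (by rw [ha3]; omega) (by
    rw [ha3]; exact h)
  refine trans_of_perm (a := fun i => a₀ + ((d * (a i).val : ℕ) : ZMod n)) ?_ hb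
    (fun i => Finset.mem_image_of_mem _ (ha1 i)) hb1 ?_ hb2 σ hσ
  · intro i j hij
    have h3 : ((d * (a i).val : ℕ) : ZMod n) = ((d * (a j).val : ℕ) : ZMod n) := add_left_cancel hij
    have h4 := ZMod.val_lt (a i)
    have h5 := ZMod.val_lt (a j)
    have h6 : d * (a i).val < n := by rw [hn]; exact Nat.mul_lt_mul_of_pos_left h4 hd
    have h7 : d * (a j).val < n := by rw [hn]; exact Nat.mul_lt_mul_of_pos_left h5 hd
    rw [ZMod.natCast_eq_natCast_iff, Nat.ModEq, Nat.mod_eq_of_lt h6, Nat.mod_eq_of_lt h7] at h3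
    exact ha (ZMod.val_injective _ (Nat.eq_of_mul_eq_mul_left hd h3))
  · intro x hx
    rw [Finset.mem_image] at hx
    obtain ⟨y, hy, rfl⟩ := hx
    obtain ⟨i, rfl⟩ := ha2 y hy
    exact ⟨i, rfl⟩

end Pool.Agent.H321.SN
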